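import Pool.Agent.K3h56.E2.Stm2
import Pool.Agent.K3h51.E2.Zeta0

/-!
# The leading term of the Dedekind zeta function at `s = 0`, exact form

This follows `Pool.Agent.K3h51.E2.core`.
-/

set_option autoImplicit false
set_option maxHeartbeats 400000

open NumberField Complex Filter Topology

namespace Pool.Agent.K3h59.E2

section

open Pool.Agent.K3h51.E2

variable (K : Type) [Field K] [NumberField K]

/-- the leading term, from the completed zeta function -/
theorem coreX (X J : ℂ → ℂ) (hX : Differentiable ℂ X) (hJ : Differentiable ℂ J)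
    (hJdef : ∀ s : ℂ, J s = (((discr K).natAbs : ℕ) : ℂ) ^ (-(s / 2)) *
      ((Gammaℝ s)⁻¹ ^ Fintype.card (InfinitePlace K) *
        (Gammaℝ (s + 1))⁻¹ ^ InfinitePlace.nrComplexPlaces K))
    (heq : ∀ s : ℂ, 1 < s.re → X s * J s = s * (s - 1) * dedekindZeta K s)
    (hfe : ∃ w : ℂ, ‖w‖ = 1 ∧ X 0 = w * (starRingEnd ℂ) (X 1))
    (hconj : (starRingEnd ℂ) (X 0) = X 0) :
    ∃ Z : ℂ → ℂ, ((∀ s : ℂ, s ≠ 1 → DifferentiableAt ℂ Z s) ∧
      ∀ s : ℂ, 1 < s.re → Z s = dedekindZeta K s) ∧ ∃ q : ℝ,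
      |q| = classNumber K / Units.torsionOrder K ∧
      Tendsto (fun s : ℂ => (s ^ (Fintype.card (InfinitePlace K) - 1))⁻¹ * Z s) (𝓝[≠] 0)
        (𝓝 ((q * Units.regulator K : ℝ) : ℂ)) := by
  have hn : 0 < Fintype.card (InfinitePlace K) := Fintype.card_pos
  have hJ0 : J 0 = 0 := by
    rw [hJdef]
    have : Gammaℝ 0 = 0 := Gammaℝ_eq_zero_iff.2 ⟨0, by simp⟩
    rw [this, inv_zero, zero_pow hn.ne', zero_mul, mul_zero]
  have hXJ : Differentiable ℂ (fun s => X s * J s) := hX.mul hJ
  have hds : Differentiable ℂ (dslope (fun s => X s * J s) 0) := by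
    rw [← differentiableOn_univ]
    exact (Complex.differentiableOn_dslope Filter.univ_mem).2 hXJ.differentiableOn
  have hval : ∀ s : ℂ, s ≠ 0 → dslope (fun s => X s * J s) 0 s / (s - 1) =
      X s * J s / s / (s - 1) := by
    intro s hs
    rw [dslope_of_ne _ hs, slope_def_field, hJ0, mul_zero, sub_zero, sub_zero]
  refine ⟨fun s => dslope (fun s => X s * J s) 0 s / (s - 1), ⟨?_, ?_⟩, ?_⟩
  · intro s hs
    exact (hds s).div (by fun_prop) (sub_ne_zero.2 hs)
  · intro s hs
    have hs0 : s ≠ 0 := fun h0 => by rw [h0] at hs; norm_num at hs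
    have hs1 : s - 1 ≠ 0 := sub_ne_zero.2 fun h0 => by rw [h0] at hs; norm_num at hs
    simp only
    rw [hval s hs0, heq s hs]
    field_simp
  · -- the value of `X` at `0`
    have hX1 := val_one K X J hX hJ hJdef heq
    obtain ⟨w, hw, hfe⟩ := hfe
    obtain ⟨v, hv⟩ : ∃ v : ℝ, v = 2 ^ Fintype.card (InfinitePlace K) * Units.regulator K *
      (classNumber K) / (Units.torsionOrder K) := ⟨_, rfl⟩
    rw [← hv] at hX1
    have hvpos : 0 < v := by
      have h1 := Units.regulator_pos K
      have h2 : (0 : ℝ) < classNumber K := by exact_mod_cast classNumber_pos K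
      have h3 : (0 : ℝ) < Units.torsionOrder K := by exact_mod_cast Units.torsionOrder_pos K
      rw [hv]
      positivity
    have hX0 : ∃ ε : ℝ, |ε| = 1 ∧ X 0 = (ε : ℂ) * (v : ℂ) := by
      rw [hX1, conj_ofReal] at hfe
      obtain ⟨x, hx⟩ : ∃ x : ℝ, X 0 = (x : ℂ) := (Complex.conj_eq_iff_real.1 hconj)
      have h1 : |x| = v := by
        have h2 : ‖X 0‖ = v := by
          rw [hfe, norm_mul, hw, one_mul, Complex.norm_real, Real.norm_eq_abs, abs_of_pos hvpos]
        rw [hx, Complex.norm_real, Real.norm_eq_abs] at h2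
        exact h2
      rcases abs_choice x with h2 | h2
      · refine ⟨1, abs_one, ?_⟩
        rw [hx, ← h1, h2]
        simp
      · refine ⟨-1, by rw [abs_neg, abs_one], ?_⟩
        rw [hx, ← h1, h2]
        simp
    obtain ⟨ε, hε, hX0⟩ := hX0
    refine ⟨-ε * (classNumber K) / (Units.torsionOrder K), ?_, ?_⟩
    · rw [abs_div, abs_mul, abs_neg, hε, one_mul, Nat.abs_cast, Nat.abs_cast]
    · have h1 : Tendsto (fun s : ℂ => X s / (s - 1)) (𝓝[≠] 0) (𝓝 (X 0 / (0 - 1))) := by
        have hc : ContinuousAt (fun s : ℂ => X s / (s - 1)) 0 :=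
          ((hX 0).div (by fun_prop) (by norm_num)).continuousAt
        exact hc.tendsto.mono_left (nhdsWithin_le_nhds (s := ({0}ᶜ : Set ℂ)))
      have h2 := h1.mul (lim_inf K J hJdef)
      have h3 : X 0 / (0 - 1) * (2 : ℂ)⁻¹ ^ Fintype.card (InfinitePlace K) =
          ((-ε * (classNumber K) / (Units.torsionOrder K) * Units.regulator K : ℝ) : ℂ) := by
        have ht : (Units.torsionOrder K : ℂ) ≠ 0 := by
          exact_mod_cast (Units.torsionOrder_pos K).ne'
        rw [hX0, hv]
        push_cast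
        rw [inv_pow]
        field_simp
        ring
      rw [h3] at h2
      refine h2.congr' ?_
      filter_upwards [self_mem_nhdsWithin] with s hs
      have hs0 : s ≠ 0 := hs
      rw [hval s hs0]
      have h4 : s ^ Fintype.card (InfinitePlace K) =
          s ^ (Fintype.card (InfinitePlace K) - 1) * s := by
        rw [← pow_succ, Nat.sub_add_cancel hn]
      rw [h4]
      have h5 : s ^ (Fintype.card (InfinitePlace K) - 1) ≠ 0 := pow_ne_zero _ hs0
      field_simp

end

open Pool.Agent.K3h56.E2 Pool.Agent.R362.Near Pool.Agent.R362.HL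
open Pool.Agent.Y773 Pool.Agent.Y773.G
open Pool.Agent.K3h51.E2 (inf_form)

/-- The leading term of the zeta function at `s = 0`, exact form. -/
theorem t_ZETA0X : S_ZETA0X := by
  intro K _ _
  obtain ⟨X, hX⟩ := exists_xi K
  have h : IsXi K X := hX
  refine coreX K X (inf K) h.diff inf_diff (inf_form K) ?_ ?_ ?_
  · intro z hz1
    have hR : ((((discr K).natAbs : ℕ) : ℝ) : ℂ) ≠ 0 := by
      have := NumberField.discr_ne_zero K
      have h1 : (discr K).natAbs ≠ 0 := Int.natAbs_ne_zero.2 this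
      exact_mod_cast h1
    rw [h.eq z hz1, ← LI_zeta hz1, inf, Finset.prod_inv_distrib, Complex.cpow_neg, pow_one]
    have hp : ∏ φ : K →+* ℂ, Gammaℝ (z + (ex (fun _ : InfinitePlace K => 0) φ : ℕ)) ≠ 0 :=
      Finset.prod_ne_zero_iff.2 fun φ _ => Gammaℝ_ne_zero_of_re_pos (by
        rw [Complex.add_re, Complex.natCast_re]
        have : (0 : ℝ) ≤ (ex (fun _ : InfinitePlace K => 0) φ : ℕ) := Nat.cast_nonneg _
        linarith)
    have hc : ((((discr K).natAbs : ℕ) : ℝ) : ℂ) ^ (z / 2) ≠ 0 := by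
      rw [Ne, Complex.cpow_eq_zero_iff]
      exact fun h => hR h.1
    field_simp
  · obtain ⟨w, hw, hfe⟩ := h.fe
    refine ⟨w, hw, ?_⟩
    have h1 := hfe 0
    rw [map_zero, sub_zero] at h1
    exact h1
  · have h1 := h.conj 0
    rw [map_zero] at h1
    exact h1.symm

end Pool.Agent.K3h59.E2
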